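import Pool.Agent.Q188.TS.Core
import Pool.Agent.H212R2.KLS.R4

/-!
# The Poincare inequality for bounded support
-/

set_option autoImplicit false

namespace Pool.Agent.Q188.TS

open MeasureTheory Set Matrix Pool.Agent.H888R2.KC Pool.Agent.H888R2.KT
open scoped ENNReal InnerProductSpace
open Pool.Agent.H212R2.KLS (mu Bdd)

/-- the crude inequality with constant `C` -/
def Crude (C : ℝ) : Prop := ∀ {κ : Type} [Fintype κ] (ρ : EuclideanSpace ℝ κ → ℝ), LC ρ →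
    mu ρ univ = 1 → ∀ σ : ℝ, 0 < σ → ∫ x, ‖x‖ ^ 2 ∂(mu ρ) ≤ σ ^ 2 →
    ∀ f : EuclideanSpace ℝ κ → ℝ, ContDiff ℝ 1 f →
    ∫ x, f x ^ 2 ∂(mu ρ) - (∫ x, f x ∂(mu ρ)) ^ 2 ≤
      C * σ ^ 2 * ∫ x, ‖fderiv ℝ f x‖ ^ 2 ∂(mu ρ)

variable {κ : Type} [Fintype κ] {ρ : EuclideanSpace ℝ κ → ℝ}

/-- the posteriors -/
theorem post (hρ : LC ρ) (T : EuclideanSpace ℝ κ ≃L[ℝ] EuclideanSpace ℝ κ)
    (a : EuclideanSpace ℝ κ) (β : EuclideanSpace ℝ κ → ℝ)
    (hβ : ∀ x y, ρ x * ρ y ≤ (ρ ((1 / 2 : ℝ) • (x + y))) ^ 2 * Real.exp (-(β (x - y) / 4)))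
    (K : ℝ) (hK : 0 < K) (hT : ∀ z, K⁻¹ * ‖z‖ ^ 2 ≤ β z + ‖T z‖ ^ 2)
    (f : EuclideanSpace ℝ κ → ℝ) (hf : ContDiff ℝ 1 f) (y : EuclideanSpace ℝ κ) :
    ∃ c : ℝ, pst 1 (push T a ρ) (fun u => (f (a + T.symm u) - c) ^ 2) y ≤
      K * pst 1 (push T a ρ) (fun u => ‖fderiv ℝ f (a + T.symm u)‖ ^ 2) y := by
  have hL := lc_push hρ T a
  set E : EuclideanSpace ℝ κ → ℝ := fun x => Real.exp (-(‖T (x - a) - y‖ ^ 2 / (2 * 1))) with hE
  set w : EuclideanSpace ℝ κ → ℝ := fun x => ρ x * E x with hw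
  have hEc : Continuous E := by
    rw [hE]
    fun_prop
  have hE0 : ∀ x, 0 < E x := fun x => Real.exp_pos _
  have hE1 : ∀ x, E x ≤ 1 := by
    intro x
    rw [hE]
    simp only [Real.exp_le_one_iff, Left.neg_nonpos_iff]
    positivity
  have hw0 : ∀ x, 0 ≤ w x := fun x => mul_nonneg (hρ.nonneg x) (hE0 x).le
  have hwm : Measurable w := hρ.meas.mul hEc.measurable
  have hwb : ∃ B, ∀ x, w x ≤ B := by
    obtain ⟨B, hB⟩ := bdd_of_finite ρ hρ.nonneg hρ.meas hρ.logc hρ.fin hρ.ne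
    refine ⟨B, fun x => ?_⟩
    calc w x ≤ ρ x * 1 := mul_le_mul_of_nonneg_left (hE1 x) (hρ.nonneg x)
      _ = ρ x := mul_one _
      _ ≤ B := hB x
  have hws : Bdd w := by
    obtain ⟨R, hR⟩ := hρ.bdd
    exact ⟨R, fun x hx => by rw [hw]; simp only; rw [hR x hx, zero_mul]⟩
  have hmid : ∀ x x', w x * w x' ≤ (w ((1 / 2 : ℝ) • (x + x'))) ^ 2 *
      Real.exp (-(K⁻¹ / 4 * ‖x - x'‖ ^ 2)) := by
    intro x x'
    have h1 := hβ x x'
    have h2 := N5bx.par 1 one_pos (T (x - a)) (T (x' - a)) y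
    have e1 : (1 / 2 : ℝ) • (T (x - a) + T (x' - a)) = T ((1 / 2 : ℝ) • (x + x') - a) := by
      rw [← map_add, ← map_smul]
      congr 1
      module
    have e2 : T (x - a) - T (x' - a) = T (x - x') := by
      rw [← map_sub]; congr 1; abel
    rw [e1, e2] at h2
    have h3 : E x * E x' = (E ((1 / 2 : ℝ) • (x + x'))) ^ 2 *
        Real.exp (-(‖T (x - x')‖ ^ 2 / 4)) := by
      rw [hE]
      simp only
      rw [h2]
      congr 3
      ring
    calc w x * w x' = (ρ x * ρ x') * (E x * E x') := by rw [hw]; ring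
      _ ≤ ((ρ ((1 / 2 : ℝ) • (x + x'))) ^ 2 * Real.exp (-(β (x - x') / 4))) * (E x * E x') :=
          mul_le_mul_of_nonneg_right h1 (mul_nonneg (hE0 x).le (hE0 x').le)
      _ = (w ((1 / 2 : ℝ) • (x + x'))) ^ 2 *
          Real.exp (-((β (x - x') + ‖T (x - x')‖ ^ 2) / 4)) := by
          have e3 : Real.exp (-((β (x - x') + ‖T (x - x')‖ ^ 2) / 4)) =
              Real.exp (-(β (x - x') / 4)) * Real.exp (-(‖T (x - x')‖ ^ 2 / 4)) := by
            rw [← Real.exp_add]; congr 1; ring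
          rw [h3, e3, hw]
          ring
      _ ≤ _ := by
          refine mul_le_mul_of_nonneg_left ?_ (sq_nonneg _)
          rw [Real.exp_le_exp]
          have := hT (x - x')
          linarith
  obtain ⟨c, hc⟩ := Pool.Agent.H212R2.KLS.poincare_of_strong volume w hw0 hwm hwb hws K⁻¹
    (inv_pos.2 hK) hmid f hf
  rw [inv_inv] at hc
  refine ⟨c, ?_⟩
  have hz := (zz_pos hL 1 one_pos y).1
  have key : ∀ φ : EuclideanSpace ℝ κ → ℝ, Continuous φ →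
      pst 1 (push T a ρ) (fun u => φ (a + T.symm u)) y * zz 1 (push T a ρ) y =
        ∫ x, φ x * w x := by
    intro φ hφ
    unfold pst
    rw [div_mul_cancel₀ _ hz.ne', int_push hρ T a _ (by fun_prop), N2x.int_mu hρ.nonneg hρ.meas]
    refine integral_congr_ae (Filter.Eventually.of_forall fun x => ?_)
    simp only [hw, hE]
    have e4 : a + T.symm (T (x - a)) = x := by
      rw [T.symm_apply_apply]; abel
    rw [e4]
    ring
  have hdc : Continuous fun x => ‖fderiv ℝ f x‖ ^ 2 :=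
    (hf.continuous_fderiv one_ne_zero).norm.pow 2
  have hfc := hf.continuous
  rw [← key (fun x => (f x - c) ^ 2) (by fun_prop), ← key (fun x => ‖fderiv ℝ f x‖ ^ 2) hdc,
    ← mul_assoc] at hc
  exact le_of_mul_le_mul_right hc hz

/-- **bounded support** -/
theorem main {C : ℝ} (hC : 0 < C) (hcr : Crude C) (hρ : LC ρ) (h1 : mu ρ univ = 1)
    (T : EuclideanSpace ℝ κ ≃L[ℝ] EuclideanSpace ℝ κ)
    (a : EuclideanSpace ℝ κ) (β : EuclideanSpace ℝ κ → ℝ)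
    (hβ : ∀ x y, ρ x * ρ y ≤ (ρ ((1 / 2 : ℝ) • (x + y))) ^ 2 * Real.exp (-(β (x - y) / 4)))
    (K : ℝ) (hK : 0 < K) (hT : ∀ z, K⁻¹ * ‖z‖ ^ 2 ≤ β z + ‖T z‖ ^ 2) (σ : ℝ) (hσ : 0 < σ)
    (hmom : ∫ x, ‖T (x - a)‖ ^ 2 ∂(mu ρ) ≤ σ ^ 2)
    (f : EuclideanSpace ℝ κ → ℝ) (hf : ContDiff ℝ 1 f) :
    ∫ x, f x ^ 2 ∂(mu ρ) - (∫ x, f x ∂(mu ρ)) ^ 2 ≤
      (1 + C * σ ^ 2) * K * ∫ x, ‖fderiv ℝ f x‖ ^ 2 ∂(mu ρ) := by
  have hP : IsProbabilityMeasure (mu ρ) := ⟨h1⟩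
  have hL := lc_push hρ T a
  have hg : Measurable fun x : EuclideanSpace ℝ κ => T (x - a) := by fun_prop
  have h1' : mu (push T a ρ) univ = 1 := by
    rw [mu_push hρ.meas T a, Measure.map_apply hg MeasurableSet.univ, preimage_univ, h1]
  obtain ⟨m, hm⟩ : ∃ m : ℝ, m = ∫ x, f x ∂(mu ρ) := ⟨_, rfl⟩
  have hfc := hf.continuous
  have hdc : Continuous fun x => ‖fderiv ℝ f x‖ ^ 2 :=
    (hf.continuous_fderiv one_ne_zero).norm.pow 2
  have hTT : ∀ x, a + T.symm (T (x - a)) = x := fun x => by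
    rw [T.symm_apply_apply]; abel
  obtain ⟨g, hg'⟩ : ∃ g : EuclideanSpace ℝ κ → ℝ, g = fun u => f (a + T.symm u) - m := ⟨_, rfl⟩
  have hgC : ContDiff ℝ 1 g := by
    rw [hg']
    have h2 : ContDiff ℝ 1 fun u : EuclideanSpace ℝ κ => a + T.symm u :=
      contDiff_const.add T.symm.contDiff
    exact (hf.comp h2).sub contDiff_const
  have if1 : Integrable f (mu ρ) := N9ax.integrable hρ hfc
  have if2 : Integrable (fun x => f x ^ 2) (mu ρ) := N9ax.integrable hρ (hfc.pow 2)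
  have hg0 : ∫ u, g u ∂(mu (push T a ρ)) = 0 := by
    rw [int_push hρ T a g hgC.continuous, hg']
    simp only [hTT]
    rw [integral_sub if1 (integrable_const _), ← hm]
    simp
  have hgs : ∫ u, g u ^ 2 ∂(mu (push T a ρ)) =
      ∫ x, f x ^ 2 ∂(mu ρ) - (∫ x, f x ∂(mu ρ)) ^ 2 := by
    have hg2c : Continuous fun u => g u ^ 2 := hgC.continuous.pow 2
    rw [int_push hρ T a _ hg2c, hg']
    simp only [hTT]
    have e : (fun x => (f x - m) ^ 2) = fun x => f x ^ 2 - 2 * m * f x + m ^ 2 := by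
      funext x; ring
    have j2 : Integrable (fun x => 2 * m * f x) (mu ρ) := if1.const_mul _
    have j12 : Integrable (fun x => f x ^ 2 - 2 * m * f x) (mu ρ) := if2.sub j2
    rw [e, integral_add j12 (integrable_const _), integral_sub if2 j2, integral_const_mul, ← hm]
    simp
    ring
  have hmom' : ∫ u, ‖u‖ ^ 2 ∂(mu (push T a ρ)) ≤ σ ^ 2 := by
    rw [int_push hρ T a _ (by fun_prop)]
    exact hmom
  have hD0 : 0 ≤ C * σ ^ 2 := by positivity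
  obtain ⟨hi, hch⟩ := chan hL h1' (C * σ ^ 2) hD0
    (fun φ hφ => hcr (push T a ρ) hL h1' σ hσ hmom' φ hφ) g hgC hg0
  rw [hgs] at hch
  refine hch.trans ?_
  have hgc0 : 0 < (gc κ 1)⁻¹ := inv_pos.2 (gc_pos (κ := κ) 1 one_pos).1
  have hGc : Continuous fun u => ‖fderiv ℝ f (a + T.symm u)‖ ^ 2 :=
    hdc.comp (by fun_prop : Continuous fun u : EuclideanSpace ℝ κ => a + T.symm u)
  obtain ⟨k1, k2⟩ := N9ax.fub1 hL 1 one_pos (fun u => ‖fderiv ℝ f (a + T.symm u)‖ ^ 2) hGc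
  have hle : ∫ y, (pst 1 (push T a ρ) (fun x => g x ^ 2) y - (pst 1 (push T a ρ) g y) ^ 2) *
      zz 1 (push T a ρ) y ≤ K * ∫ y, pst 1 (push T a ρ)
        (fun u => ‖fderiv ℝ f (a + T.symm u)‖ ^ 2) y * zz 1 (push T a ρ) y := by
    rw [← integral_const_mul]
    refine integral_mono hi (k1.const_mul K) fun y => ?_
    obtain ⟨c, hc⟩ := post hρ T a β hβ K hK hT f hf y
    have h3 := pst_var hL y g hgC.continuous (c - m)
    have e : (fun x => (g x - (c - m)) ^ 2) = fun u => (f (a + T.symm u) - c) ^ 2 := by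
      funext u; rw [hg']; ring
    rw [e] at h3
    have h4 := mul_le_mul_of_nonneg_right (h3.trans hc) (zz_pos hL 1 one_pos y).1.le
    show _ ≤ K * (pst 1 (push T a ρ) (fun u => ‖fderiv ℝ f (a + T.symm u)‖ ^ 2) y *
      zz 1 (push T a ρ) y)
    rw [← mul_assoc]
    exact h4
  have h5 : ∫ x, ‖fderiv ℝ f x‖ ^ 2 ∂(mu ρ) =
      ∫ u, ‖fderiv ℝ f (a + T.symm u)‖ ^ 2 ∂(mu (push T a ρ)) := by
    rw [int_push hρ T a _ hGc]
    simp only [hTT]
  rw [h5, k2]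
  calc (1 + C * σ ^ 2) * ((gc κ 1)⁻¹ * ∫ y, (pst 1 (push T a ρ) (fun x => g x ^ 2) y -
        (pst 1 (push T a ρ) g y) ^ 2) * zz 1 (push T a ρ) y)
      ≤ (1 + C * σ ^ 2) * ((gc κ 1)⁻¹ * (K * ∫ y, pst 1 (push T a ρ)
        (fun u => ‖fderiv ℝ f (a + T.symm u)‖ ^ 2) y * zz 1 (push T a ρ) y)) := by
        refine mul_le_mul_of_nonneg_left (mul_le_mul_of_nonneg_left hle hgc0.le) (by positivity)
    _ = _ := by ring

end Pool.Agent.Q188.TS
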