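import Pool.Agent.H888R2.KB.N1
import Pool.Agent.H888R2.KT.V2

/-!
# The Gaussian channel: `Var f ≤ (1 + D) E Var(f | Y)`
-/

set_option autoImplicit false

namespace Pool.Agent.Q188.TS

open MeasureTheory Set Matrix Pool.Agent.H888R2.KC Pool.Agent.H888R2.KT
open scoped ENNReal InnerProductSpace
open Pool.Agent.H212R2.KLS (mu Bdd)

variable {κ : Type} [Fintype κ] {ρ : EuclideanSpace ℝ κ → ℝ}

/-- If `X` has density `ρ` with Poincare constant `D` and `Y = X + G`, then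
`Var f ≤ (1 + D) E Var(f | Y)`. -/
theorem chan (hρ : LC ρ) (h1 : mu ρ univ = 1) (D : ℝ) (hD0 : 0 ≤ D)
    (hD : ∀ g : EuclideanSpace ℝ κ → ℝ, ContDiff ℝ 1 g →
      ∫ x, g x ^ 2 ∂(mu ρ) - (∫ x, g x ∂(mu ρ)) ^ 2 ≤ D * ∫ x, ‖fderiv ℝ g x‖ ^ 2 ∂(mu ρ))
    (f : EuclideanSpace ℝ κ → ℝ) (hf : ContDiff ℝ 1 f) (hf0 : ∫ x, f x ∂(mu ρ) = 0) :
    Integrable (fun y => (pst 1 ρ (fun x => f x ^ 2) y - (pst 1 ρ f y) ^ 2) * zz 1 ρ y) ∧
    ∫ x, f x ^ 2 ∂(mu ρ) ≤ (1 + D) * ((gc κ 1)⁻¹ *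
      ∫ y, (pst 1 ρ (fun x => f x ^ 2) y - (pst 1 ρ f y) ^ 2) * zz 1 ρ y) := by
  have hP : IsProbabilityMeasure (mu ρ) := ⟨h1⟩
  have hh : (0 : ℝ) < 1 := one_pos
  have hfc := hf.continuous
  obtain ⟨hc, B, hB⟩ := pst_smooth hρ 1 hh f hfc
  set F := pst 1 ρ f with hF
  have hc1 : ContDiff ℝ 1 F := hc.of_le (by norm_num)
  obtain ⟨hG1, -⟩ := gs_deriv 1 hh F hc1 B (fun y => (hB y).1) (fun y => (hB y).2.1)
  set G := gs 1 F with hG
  have hGc : Continuous G := hG1.continuous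
  have hB0 : 0 ≤ B := (abs_nonneg _).trans (hB 0).1
  have hb := fun x => gs_bessel 1 hh F hc1 B (fun y => (hB y).1) (fun y => (hB y).2.1) x
  -- the numbers
  obtain ⟨i1, e1⟩ := N9ax.fub1 hρ 1 hh (fun x => f x ^ 2) (hfc.pow 2)
  obtain ⟨i2, -, e2⟩ := fub hρ 1 hh f F hfc hc1.continuous B (fun y => (hB y).1)
  obtain ⟨i3, c3, e3⟩ := fub hρ 1 hh (fun _ => 1) (fun y => F y ^ 2) continuous_const
    (hc1.continuous.pow 2) (B ^ 2) (fun y => by
      rw [abs_pow]; exact pow_le_pow_left₀ (abs_nonneg _) (hB y).1 2)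
  obtain ⟨e4, -⟩ := l2step hρ 1 hh f hf
  rw [← hF, ← hG, hf0] at e4
  have e5 : ∫ x, gs 1 (fun y => F y ^ 2) x ∂(mu ρ) = ∫ x, f x * G x ∂(mu ρ) := by
    have h2 : ∫ x, (fun _ : EuclideanSpace ℝ κ => (1 : ℝ)) x * gs 1 (fun y => F y ^ 2) x ∂(mu ρ) =
        ∫ x, gs 1 (fun y => F y ^ 2) x ∂(mu ρ) := by simp only [one_mul]
    rw [← h2, e3, e2]
    congr 1
    refine integral_congr_ae (Filter.Eventually.of_forall fun y => ?_)
    show pst 1 ρ (fun _ => 1) y * F y ^ 2 * zz 1 ρ y = F y * F y * zz 1 ρ y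
    rw [N9ax.pst_one hρ 1 hh]
    ring
  set W := ∫ x, f x * G x ∂(mu ρ) with hW
  set V := ∫ x, f x ^ 2 ∂(mu ρ) with hV
  set N := ∫ x, G x ^ 2 ∂(mu ρ) with hN
  have hci : ∀ {g : EuclideanSpace ℝ κ → ℝ}, Continuous g → Integrable g (mu ρ) :=
    fun hg => N9ax.integrable hρ hg
  have hG2 : Integrable (fun x => G x ^ 2) (mu ρ) := hci (hGc.pow 2)
  have hf2 : Integrable (fun x => f x ^ 2) (mu ρ) := hci (hfc.pow 2)
  have hfG : Integrable (fun x => f x * G x) (mu ρ) := hci (hfc.mul hGc)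
  have hdG : Integrable (fun x => ‖fderiv ℝ G x‖ ^ 2) (mu ρ) :=
    hci ((hG1.continuous_fderiv one_ne_zero).norm.pow 2)
  -- Poincare for G
  have h5 : N ≤ D * (W - N) := by
    have h6 := hD G hG1
    rw [e4] at h6
    have h7 : ∫ x, ‖fderiv ℝ G x‖ ^ 2 ∂(mu ρ) ≤ W - N := by
      rw [← e5, hN, ← integral_sub (hci c3) hG2]
      refine integral_mono hdG ((hci c3).sub hG2) fun x => ?_
      have := hb x
      rw [one_mul] at this
      exact this
    nlinarith [mul_le_mul_of_nonneg_left h7 hD0]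
  have hN0 : 0 ≤ N := integral_nonneg fun x => sq_nonneg _
  have hV0 : 0 ≤ V := integral_nonneg fun x => sq_nonneg _
  -- Cauchy-Schwarz
  have hcs : W ^ 2 ≤ V * N := by
    have hq : ∀ t : ℝ, 0 ≤ N * (t * t) + (-2 * W) * t + V := by
      intro t
      have h8 : 0 ≤ ∫ x, (f x - t * G x) ^ 2 ∂(mu ρ) := integral_nonneg fun x => sq_nonneg _
      have h9 : ∫ x, (f x - t * G x) ^ 2 ∂(mu ρ) = V - 2 * t * W + t ^ 2 * N := by
        have j2 := hfG.const_mul (2 * t)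
        have j3 := hG2.const_mul (t ^ 2)
        have j12 : Integrable (fun x => f x ^ 2 - 2 * t * (f x * G x)) (mu ρ) := hf2.sub j2
        rw [hV, hW, hN, ← integral_const_mul, ← integral_const_mul]
        rw [← integral_sub hf2 j2, ← integral_add j12 j3]
        refine integral_congr_ae (Filter.Eventually.of_forall fun x => ?_)
        show (f x - t * G x) ^ 2 = f x ^ 2 - 2 * t * (f x * G x) + t ^ 2 * (G x ^ 2)
        ring
      rw [h9] at h8
      nlinarith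
    have := discrim_le_zero hq
    unfold discrim at this
    nlinarith
  have hWV : W * (1 + D) ≤ D * V := by
    have hW0 : 0 ≤ W := by
      by_contra hneg
      push Not at hneg
      have a1 : D * (W - N) ≤ 0 := mul_nonpos_of_nonneg_of_nonpos hD0 (by linarith)
      have a2 : N = 0 := le_antisymm (by linarith) hN0
      rw [a2, mul_zero] at hcs
      nlinarith [mul_pos_of_neg_of_neg hneg hneg]
    rcases hW0.eq_or_lt with h0 | h0
    · rw [← h0]; nlinarith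
    · have h10 : N * (1 + D) ≤ D * W := by nlinarith
      have h11 : W ^ 2 * (1 + D) ≤ V * (D * W) := by
        nlinarith [mul_le_mul_of_nonneg_left h10 hV0, mul_le_mul_of_nonneg_right hcs (by linarith : 0 ≤ 1 + D)]
      have : W * (W * (1 + D)) ≤ W * (D * V) := by nlinarith
      exact le_of_mul_le_mul_left this h0
  have hA : (gc κ 1)⁻¹ * ∫ y, (pst 1 ρ (fun x => f x ^ 2) y - (F y) ^ 2) * zz 1 ρ y = V - W := by
    have h12 : (fun y => (pst 1 ρ (fun x => f x ^ 2) y - (F y) ^ 2) * zz 1 ρ y) = fun y =>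
        pst 1 ρ (fun x => f x ^ 2) y * zz 1 ρ y - F y * F y * zz 1 ρ y := by
      funext y; ring
    rw [h12, integral_sub i1 i2, mul_sub, ← e1, ← e2]
  refine ⟨?_, ?_⟩
  · have := i1.sub i2
    refine this.congr (Filter.Eventually.of_forall fun y => ?_)
    show pst 1 ρ (fun x => f x ^ 2) y * zz 1 ρ y - F y * F y * zz 1 ρ y = _
    ring
  · rw [hA]
    nlinarith

end Pool.Agent.Q188.TS
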