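import Pool.Agent.Q188.TS.Chan

/-!
# Anisotropic channels
-/

set_option autoImplicit false

namespace Pool.Agent.Q188.TS

open MeasureTheory Set Matrix Pool.Agent.H888R2.KC Pool.Agent.H888R2.KT
open scoped ENNReal InnerProductSpace
open Pool.Agent.H212R2.KLS (mu Bdd)

variable {κ : Type} [Fintype κ] {ρ : EuclideanSpace ℝ κ → ℝ}

/-- the density of `T (X - a)` -/
noncomputable def push (T : EuclideanSpace ℝ κ ≃L[ℝ] EuclideanSpace ℝ κ) (a : EuclideanSpace ℝ κ)
    (ρ : EuclideanSpace ℝ κ → ℝ) (u : EuclideanSpace ℝ κ) : ℝ :=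
  |LinearMap.det (T.symm : EuclideanSpace ℝ κ →ₗ[ℝ] EuclideanSpace ℝ κ)| * ρ (a + T.symm u)

theorem det_pos (T : EuclideanSpace ℝ κ ≃L[ℝ] EuclideanSpace ℝ κ) :
    0 < |LinearMap.det (T.symm : EuclideanSpace ℝ κ →ₗ[ℝ] EuclideanSpace ℝ κ)| := by
  rw [abs_pos]
  exact (LinearEquiv.isUnit_det' T.symm.toLinearEquiv).ne_zero

theorem mu_push (hm : Measurable ρ) (T : EuclideanSpace ℝ κ ≃L[ℝ] EuclideanSpace ℝ κ)
    (a : EuclideanSpace ℝ κ) :
    mu (push T a ρ) = (mu ρ).map fun x => T (x - a) := by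
  have hg : Measurable fun x : EuclideanSpace ℝ κ => T (x - a) := by fun_prop
  have hdp := det_pos T
  set d := LinearMap.det (T.symm : EuclideanSpace ℝ κ →ₗ[ℝ] EuclideanSpace ℝ κ) with hd
  have hd0 : d ≠ 0 := abs_pos.1 hdp
  have hmap : Measure.map (⇑T.symm) (volume : Measure (EuclideanSpace ℝ κ)) =
      ENNReal.ofReal |d⁻¹| • volume :=
    Measure.map_linearMap_addHaar_eq_smul_addHaar (μ := (volume : Measure (EuclideanSpace ℝ κ)))
      (f := (T.symm : EuclideanSpace ℝ κ →ₗ[ℝ] EuclideanSpace ℝ κ)) hd0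
  ext s hs
  rw [Measure.map_apply hg hs, mu, mu, withDensity_apply _ hs, withDensity_apply _ (hg hs),
    ← lintegral_indicator hs, ← lintegral_indicator (hg hs)]
  obtain ⟨H, hH⟩ : ∃ H : EuclideanSpace ℝ κ → ℝ≥0∞, H = ((fun x => T (x - a)) ⁻¹' s).indicator
    fun x => ENNReal.ofReal (ρ x) := ⟨_, rfl⟩
  have hHm : Measurable H := by
    rw [hH]; exact (ENNReal.measurable_ofReal.comp hm).indicator (hg hs)
  rw [← hH]
  have e1 : (s.indicator fun x => ENNReal.ofReal (push T a ρ x)) = fun u =>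
      ENNReal.ofReal |d| * H (a + T.symm u) := by
    funext u
    rw [hH]
    by_cases hu : u ∈ s
    · rw [indicator_of_mem hu, indicator_of_mem]
      · unfold push
        rw [ENNReal.ofReal_mul (abs_nonneg _)]
      · show T (a + T.symm u - a) ∈ s
        rw [add_sub_cancel_left, T.apply_symm_apply]
        exact hu
    · rw [indicator_of_notMem hu, indicator_of_notMem, mul_zero]
      show ¬ T (a + T.symm u - a) ∈ s
      rw [add_sub_cancel_left, T.apply_symm_apply]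
      exact hu
  have hTs : Measurable fun u : EuclideanSpace ℝ κ => a + T.symm u := by fun_prop
  have hHm2 : Measurable fun u => H (a + T.symm u) := hHm.comp hTs
  have hHm3 : Measurable fun u => H (a + u) := hHm.comp (by fun_prop)
  rw [e1, lintegral_const_mul _ hHm2]
  have e2 : ∫⁻ u, H (a + T.symm u) = ENNReal.ofReal |d⁻¹| * ∫⁻ x, H x := by
    have h1 : ∫⁻ u, H (a + T.symm u) = ∫⁻ x, H (a + x)
        ∂(Measure.map (⇑T.symm) (volume : Measure (EuclideanSpace ℝ κ))) := by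
      rw [lintegral_map hHm3 (T.symm.continuous.measurable)]
    rw [h1, hmap, lintegral_smul_measure, smul_eq_mul, lintegral_add_left_eq_self]
  rw [e2, ← mul_assoc, ← ENNReal.ofReal_mul (abs_nonneg _), ← abs_mul, mul_inv_cancel₀ hd0,
    abs_one, ENNReal.ofReal_one, one_mul]

theorem lc_push (hρ : LC ρ) (T : EuclideanSpace ℝ κ ≃L[ℝ] EuclideanSpace ℝ κ)
    (a : EuclideanSpace ℝ κ) : LC (push T a ρ) := by
  have hd := det_pos T
  have hg : Measurable fun x : EuclideanSpace ℝ κ => T (x - a) := by fun_prop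
  have hmu := mu_push hρ.meas T a
  refine ⟨fun x => mul_nonneg hd.le (hρ.nonneg _), ?_, ?_, ?_, ?_, ?_⟩
  · exact measurable_const.mul (hρ.meas.comp (by fun_prop))
  · intro x y t ht0 ht1
    unfold push
    set d := |LinearMap.det (T.symm : EuclideanSpace ℝ κ →ₗ[ℝ] EuclideanSpace ℝ κ)|
    rw [Real.mul_rpow hd.le (hρ.nonneg _), Real.mul_rpow hd.le (hρ.nonneg _)]
    have e1 : a + T.symm ((1 - t) • x + t • y) =
        (1 - t) • (a + T.symm x) + t • (a + T.symm y) := by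
      rw [map_add, map_smul, map_smul]
      module
    rw [e1]
    have e2 : d ^ (1 - t) * d ^ t = d := by
      rw [← Real.rpow_add hd]; simp
    calc d ^ (1 - t) * ρ (a + T.symm x) ^ (1 - t) * (d ^ t * ρ (a + T.symm y) ^ t)
        = (d ^ (1 - t) * d ^ t) * (ρ (a + T.symm x) ^ (1 - t) * ρ (a + T.symm y) ^ t) := by ring
      _ ≤ d * ρ ((1 - t) • (a + T.symm x) + t • (a + T.symm y)) := by
        rw [e2]
        exact mul_le_mul_of_nonneg_left (hρ.logc _ _ t ht0 ht1) hd.le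
  · obtain ⟨R, hR⟩ := hρ.bdd
    refine ⟨‖(T : EuclideanSpace ℝ κ →L[ℝ] EuclideanSpace ℝ κ)‖ * (|R| + ‖a‖), fun u hu => ?_⟩
    unfold push
    rw [hR, mul_zero]
    by_contra hcon
    push Not at hcon
    have h2 : ‖T.symm u‖ ≤ |R| + ‖a‖ := by
      have e : T.symm u = (a + T.symm u) - a := by abel
      rw [e]
      exact (norm_sub_le _ _).trans (add_le_add (hcon.trans (le_abs_self R)) le_rfl)
    have h3 : ‖u‖ ≤ ‖(T : EuclideanSpace ℝ κ →L[ℝ] EuclideanSpace ℝ κ)‖ * ‖T.symm u‖ := by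
      have h4 := (T : EuclideanSpace ℝ κ →L[ℝ] EuclideanSpace ℝ κ).le_opNorm (T.symm u)
      simpa using h4
    have h5 := mul_le_mul_of_nonneg_left h2 (norm_nonneg
      (T : EuclideanSpace ℝ κ →L[ℝ] EuclideanSpace ℝ κ))
    linarith
  · rw [hmu, Measure.map_apply hg MeasurableSet.univ, preimage_univ]
    exact hρ.fin
  · rw [hmu]
    intro h0
    rw [Measure.map_eq_zero_iff hg.aemeasurable] at h0
    exact hρ.ne h0

theorem int_push (hρ : LC ρ) (T : EuclideanSpace ℝ κ ≃L[ℝ] EuclideanSpace ℝ κ)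
    (a : EuclideanSpace ℝ κ) (φ : EuclideanSpace ℝ κ → ℝ) (hφ : Continuous φ) :
    ∫ u, φ u ∂(mu (push T a ρ)) = ∫ x, φ (T (x - a)) ∂(mu ρ) := by
  have hg : Measurable fun x : EuclideanSpace ℝ κ => T (x - a) := by fun_prop
  rw [mu_push hρ.meas T a, integral_map hg.aemeasurable hφ.aestronglyMeasurable]

/-- variance of a posterior -/
theorem pst_var (hρ : LC ρ) (y : EuclideanSpace ℝ κ) (f : EuclideanSpace ℝ κ → ℝ)
    (hf : Continuous f) (c : ℝ) :
    pst 1 ρ (fun x => f x ^ 2) y - (pst 1 ρ f y) ^ 2 ≤ pst 1 ρ (fun x => (f x - c) ^ 2) y := by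
  have e : (fun x => (f x - c) ^ 2) = fun x => (f x ^ 2 + (-2 * c) * f x) + c ^ 2 := by
    funext x; ring
  rw [e, N5x.pst_add hρ 1 one_pos y _ _ (by fun_prop) (by fun_prop),
    N5x.pst_add hρ 1 one_pos y _ _ (by fun_prop) (by fun_prop), N5x.pst_smul,
    N5x.pst_const hρ 1 one_pos y]
  nlinarith [sq_nonneg (pst 1 ρ f y - c)]

end Pool.Agent.Q188.TS
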