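import Pool.Agent.H888R2.KT.V2
import Pool.Agent.H888R2.KT.N2

/-!
# Densities which are more log-concave than a Gaussian density
-/

set_option autoImplicit false

namespace Pool.Agent.Q188.TS

open MeasureTheory Set
open scoped ENNReal InnerProductSpace

/-- Euclidean space of dimension `n` -/
abbrev Euc (n : ℕ) : Type := EuclideanSpace ℝ (Fin n)

variable {n : ℕ}

/-- the quadratic form `∑ b_i ⟪e_i, x⟫²` -/
noncomputable def Qf (e : OrthonormalBasis (Fin n) ℝ (Euc n)) (b : Fin n → ℝ) (x : Euc n) : ℝ :=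
  ∑ i, b i * ⟪e i, x⟫_ℝ ^ 2

/-- nonnegative, measurable, log-concave -/
structure LCF (g : Euc n → ℝ) : Prop where
  nonneg : ∀ x, 0 ≤ g x
  meas : Measurable g
  logc : ∀ x y, ∀ t : ℝ, 0 < t → t < 1 → g x ^ (1 - t) * g y ^ t ≤ g ((1 - t) • x + t • y)

theorem Qf_cont (e : OrthonormalBasis (Fin n) ℝ (Euc n)) (b : Fin n → ℝ) :
    Continuous (Qf e b) := by
  unfold Qf
  fun_prop

theorem Qf_conv (e : OrthonormalBasis (Fin n) ℝ (Euc n)) (b : Fin n → ℝ) (hb : ∀ i, 0 ≤ b i)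
    (x y : Euc n) (t : ℝ) (h0 : 0 < t) (h1 : t < 1) :
    Qf e b ((1 - t) • x + t • y) ≤ (1 - t) * Qf e b x + t * Qf e b y := by
  unfold Qf
  rw [Finset.mul_sum, Finset.mul_sum, ← Finset.sum_add_distrib]
  refine Finset.sum_le_sum fun i _ => ?_
  rw [inner_add_right, inner_smul_right, inner_smul_right]
  have h2 := mul_nonneg (mul_nonneg (hb i) (mul_pos h0 (sub_pos.2 h1)).le)
    (sq_nonneg (⟪e i, x⟫_ℝ - ⟪e i, y⟫_ℝ))
  nlinarith

theorem Qf_mid (e : OrthonormalBasis (Fin n) ℝ (Euc n)) (b : Fin n → ℝ) (x y : Euc n) :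
    Qf e b x + Qf e b y = 2 * Qf e b ((1 / 2 : ℝ) • (x + y)) + Qf e b (x - y) / 2 := by
  unfold Qf
  rw [Finset.mul_sum, Finset.sum_div, ← Finset.sum_add_distrib, ← Finset.sum_add_distrib]
  refine Finset.sum_congr rfl fun i _ => ?_
  rw [inner_smul_right, inner_add_right, inner_sub_right]
  ring

/-- the density `g exp (- ∑ b_i ⟪e_i, x⟫² / 2)` -/
noncomputable def dens (e : OrthonormalBasis (Fin n) ℝ (Euc n)) (b : Fin n → ℝ) (g : Euc n → ℝ)
    (x : Euc n) : ℝ := g x * Real.exp (-(Qf e b x) / 2)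

theorem dens_lcf (e : OrthonormalBasis (Fin n) ℝ (Euc n)) (b : Fin n → ℝ) (hb : ∀ i, 0 ≤ b i)
    {g : Euc n → ℝ} (hg : LCF g) : LCF (dens e b g) := by
  have hQ := Qf_cont e b
  refine ⟨fun x => mul_nonneg (hg.nonneg x) (Real.exp_pos _).le, ?_, ?_⟩
  · exact hg.meas.mul (by fun_prop)
  · intro x y t h0 h1
    unfold dens
    rw [Real.mul_rpow (hg.nonneg x) (Real.exp_pos _).le,
      Real.mul_rpow (hg.nonneg y) (Real.exp_pos _).le, ← Real.exp_mul, ← Real.exp_mul]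
    calc g x ^ (1 - t) * Real.exp (-(Qf e b x) / 2 * (1 - t)) *
          (g y ^ t * Real.exp (-(Qf e b y) / 2 * t))
        = (g x ^ (1 - t) * g y ^ t) *
          Real.exp (-((1 - t) * Qf e b x + t * Qf e b y) / 2) := by
          have : Real.exp (-((1 - t) * Qf e b x + t * Qf e b y) / 2) =
              Real.exp (-(Qf e b x) / 2 * (1 - t)) * Real.exp (-(Qf e b y) / 2 * t) := by
            rw [← Real.exp_add]; congr 1; ring
          rw [this]; ring
      _ ≤ _ := by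
        refine mul_le_mul (hg.logc x y t h0 h1) ?_ (Real.exp_pos _).le (hg.nonneg _)
        rw [Real.exp_le_exp]
        have := Qf_conv e b hb x y t h0 h1
        linarith

theorem dens_mid (e : OrthonormalBasis (Fin n) ℝ (Euc n)) (b : Fin n → ℝ)
    {g : Euc n → ℝ} (hg : LCF g) (x y : Euc n) :
    dens e b g x * dens e b g y ≤ (dens e b g ((1 / 2 : ℝ) • (x + y))) ^ 2 *
      Real.exp (-(Qf e b (x - y) / 4)) := by
  have h1 := Pool.Agent.H888R2.KT.N2x.mid_sq hg.nonneg hg.logc x y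
  have h2 := Qf_mid e b x y
  unfold dens
  have e1 : Real.exp (-(Qf e b x) / 2) * Real.exp (-(Qf e b y) / 2) =
      Real.exp (-(Qf e b ((1 / 2 : ℝ) • (x + y))) / 2) ^ 2 *
        Real.exp (-(Qf e b (x - y) / 4)) := by
    rw [← Real.exp_add, ← Real.exp_nat_mul, ← Real.exp_add]
    congr 1
    push_cast
    linarith
  calc g x * Real.exp (-(Qf e b x) / 2) * (g y * Real.exp (-(Qf e b y) / 2))
      = (g x * g y) * (Real.exp (-(Qf e b x) / 2) * Real.exp (-(Qf e b y) / 2)) := by ring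
    _ ≤ (g ((1 / 2 : ℝ) • (x + y))) ^ 2 *
        (Real.exp (-(Qf e b x) / 2) * Real.exp (-(Qf e b y) / 2)) :=
      mul_le_mul_of_nonneg_right h1 (mul_pos (Real.exp_pos _) (Real.exp_pos _)).le
    _ = _ := by rw [e1]; ring

/-! ### the scaling -/

/-- diagonal scaling -/
noncomputable def dia (c : Fin n → ℝ) (hc : ∀ i, c i ≠ 0) : Euc n ≃ₗ[ℝ] Euc n where
  toFun x := WithLp.toLp 2 fun i => c i * x i
  map_add' x y := by ext i; simp; ring
  map_smul' s x := by ext i; simp; ring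
  invFun x := WithLp.toLp 2 fun i => (c i)⁻¹ * x i
  left_inv x := by ext i; simp [hc i]
  right_inv x := by ext i; simp [hc i]

/-- `x ↦ (√q_i ⟪e_i, x⟫)_i` -/
noncomputable def Tm (e : OrthonormalBasis (Fin n) ℝ (Euc n)) (q : Fin n → ℝ) (hq : ∀ i, 0 < q i) :
    Euc n ≃L[ℝ] Euc n :=
  e.repr.toContinuousLinearEquiv.trans
    (dia (fun i => Real.sqrt (q i)) fun i => (Real.sqrt_pos.2 (hq i)).ne').toContinuousLinearEquiv

theorem Tm_norm (e : OrthonormalBasis (Fin n) ℝ (Euc n)) (q : Fin n → ℝ) (hq : ∀ i, 0 < q i)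
    (x : Euc n) : ‖Tm e q hq x‖ ^ 2 = Qf e q x := by
  rw [EuclideanSpace.real_norm_sq_eq]
  unfold Qf
  refine Finset.sum_congr rfl fun i _ => ?_
  have : Tm e q hq x i = Real.sqrt (q i) * ⟪e i, x⟫_ℝ := by
    rw [← e.repr_apply_apply]
    rfl
  rw [this, mul_pow, Real.sq_sqrt (hq i).le]

theorem Qf_one (e : OrthonormalBasis (Fin n) ℝ (Euc n)) (x : Euc n) :
    ‖x‖ ^ 2 = ∑ i, ⟪e i, x⟫_ℝ ^ 2 := by
  rw [← e.repr.norm_map, EuclideanSpace.real_norm_sq_eq]
  refine Finset.sum_congr rfl fun i _ => ?_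
  rw [e.repr_apply_apply]

theorem Tm_le (e : OrthonormalBasis (Fin n) ℝ (Euc n)) (b q : Fin n → ℝ) (hq : ∀ i, 0 < q i)
    (k : ℝ) (h : ∀ i, k ≤ b i + q i) (z : Euc n) :
    k * ‖z‖ ^ 2 ≤ Qf e b z + ‖Tm e q hq z‖ ^ 2 := by
  rw [Tm_norm, Qf_one e]
  unfold Qf
  rw [Finset.mul_sum, ← Finset.sum_add_distrib]
  refine Finset.sum_le_sum fun i _ => ?_
  have := mul_le_mul_of_nonneg_right (h i) (sq_nonneg ⟪e i, z⟫_ℝ)
  linarith

end Pool.Agent.Q188.TS
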