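import Pool.Agent.Q188.TS.Dn
import Pool.Agent.Q188.TS.Bd

/-!
# The interpolation inequality
-/

set_option autoImplicit false

namespace Pool.Agent.Q188.TS

open MeasureTheory Set Filter Topology
open scoped ENNReal InnerProductSpace
open Pool.Agent.H888R2.KT (LC)
open Pool.Agent.H212R2.KLS (mu Bdd)

variable {n : ℕ}

/-- the balls of radius `N` -/
def Bl (n N : ℕ) : Set (Euc n) := Metric.closedBall 0 N

theorem Bl_meas (N : ℕ) : MeasurableSet (Bl n N) := Metric.isClosed_closedBall.measurableSet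

theorem Bl_mono : Monotone (Bl n) := fun N M h =>
  Metric.closedBall_subset_closedBall (by exact_mod_cast h)

theorem Bl_union : ⋃ N, Bl n N = univ := by
  refine eq_univ_of_forall fun x => mem_iUnion.2 ?_
  obtain ⟨N, hN⟩ := exists_nat_ge ‖x‖
  exact ⟨N, by rw [Bl, mem_closedBall_zero_iff]; exact hN⟩

theorem Bl_tendsto (μ : Measure (Euc n)) (f : Euc n → ℝ) (hf : Integrable f μ) :
    Tendsto (fun N => ∫ x in Bl n N, f x ∂μ) atTop (𝓝 (∫ x, f x ∂μ)) := by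
  have := tendsto_setIntegral_of_monotone (μ := μ) (f := f) (s := Bl n) Bl_meas Bl_mono
    (by rw [Bl_union]; exact hf.integrableOn)
  rwa [Bl_union, setIntegral_univ] at this

/-- the normalised truncation -/
noncomputable def tr (ρ : Euc n → ℝ) (M : ℝ) (N : ℕ) (x : Euc n) : ℝ :=
  M⁻¹ * (Bl n N).indicator ρ x

theorem mu_tr {ρ : Euc n → ℝ} (hρ : LCF ρ) {M : ℝ} (hM : 0 < M) (N : ℕ) :
    mu (tr ρ M N) = ENNReal.ofReal M⁻¹ • (mu ρ).restrict (Bl n N) := by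
  rw [← Pool.Agent.H888R2.KT.V2x.mu_indicator ρ _ (Bl_meas N)]
  unfold mu tr
  have e : (fun x => ENNReal.ofReal (M⁻¹ * (Bl n N).indicator ρ x)) =
      ENNReal.ofReal M⁻¹ • fun x => ENNReal.ofReal ((Bl n N).indicator ρ x) := by
    funext x
    rw [Pi.smul_apply, smul_eq_mul, ENNReal.ofReal_mul (inv_pos.2 hM).le]
  rw [e, withDensity_smul]
  exact ENNReal.measurable_ofReal.comp (hρ.meas.indicator (Bl_meas N))

theorem int_tr {ρ : Euc n → ℝ} (hρ : LCF ρ) {M : ℝ} (hM : 0 < M) (N : ℕ) (φ : Euc n → ℝ) :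
    ∫ x, φ x ∂(mu (tr ρ M N)) = M⁻¹ * ∫ x in Bl n N, φ x ∂(mu ρ) := by
  rw [mu_tr hρ hM, integral_smul_measure, ENNReal.toReal_ofReal (inv_pos.2 hM).le, smul_eq_mul]

theorem lc_tr {ρ : Euc n → ℝ} (hρ : LCF ρ) (hfin : mu ρ univ ≠ ⊤) {M : ℝ} (hM : 0 < M) (N : ℕ)
    (hne : mu ρ (Bl n N) ≠ 0) : LC (tr ρ M N) := by
  have hM' : 0 < M⁻¹ := inv_pos.2 hM
  have hUc : Convex ℝ (Bl n N) := convex_closedBall _ _
  have hnn : ∀ x, 0 ≤ tr ρ M N x := fun x =>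
    mul_nonneg hM'.le (Set.indicator_nonneg (fun x _ => hρ.nonneg x) x)
  refine ⟨hnn, measurable_const.mul (hρ.meas.indicator (Bl_meas N)), ?_, ?_, ?_, ?_⟩
  · intro x y t ht0 ht1
    by_cases hx : x ∈ Bl n N
    · by_cases hy : y ∈ Bl n N
      · have hz : (1 - t) • x + t • y ∈ Bl n N := hUc hx hy (by linarith) ht0.le (by ring)
        unfold tr
        rw [Set.indicator_of_mem hx, Set.indicator_of_mem hy, Set.indicator_of_mem hz,
          Real.mul_rpow hM'.le (hρ.nonneg _), Real.mul_rpow hM'.le (hρ.nonneg _)]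
        have e2 : M⁻¹ ^ (1 - t) * M⁻¹ ^ t = M⁻¹ := by
          rw [← Real.rpow_add hM']; simp
        calc M⁻¹ ^ (1 - t) * ρ x ^ (1 - t) * (M⁻¹ ^ t * ρ y ^ t)
            = (M⁻¹ ^ (1 - t) * M⁻¹ ^ t) * (ρ x ^ (1 - t) * ρ y ^ t) := by ring
          _ ≤ _ := by rw [e2]; exact mul_le_mul_of_nonneg_left (hρ.logc x y t ht0 ht1) hM'.le
      · have : tr ρ M N y = 0 := by unfold tr; rw [Set.indicator_of_notMem hy, mul_zero]
        rw [this, Real.zero_rpow ht0.ne', mul_zero]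
        exact hnn _
    · have : tr ρ M N x = 0 := by unfold tr; rw [Set.indicator_of_notMem hx, mul_zero]
      rw [this, Real.zero_rpow (by linarith), zero_mul]
      exact hnn _
  · refine ⟨N, fun x hx => ?_⟩
    unfold tr
    rw [Set.indicator_of_notMem, mul_zero]
    rw [Bl, mem_closedBall_zero_iff, not_le]
    exact hx
  · rw [mu_tr hρ hM, Measure.smul_apply, Measure.restrict_apply_univ, smul_eq_mul]
    exact ENNReal.mul_ne_top ENNReal.ofReal_ne_top (ne_top_of_le_ne_top hfin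
      (measure_mono (Set.subset_univ _)))
  · intro h0
    have h1 : mu (tr ρ M N) univ = 0 := by rw [h0]; rfl
    rw [mu_tr hρ hM, Measure.smul_apply, Measure.restrict_apply_univ, smul_eq_mul,
      mul_eq_zero] at h1
    rcases h1 with h1 | h1
    · exact (ENNReal.ofReal_pos.2 hM').ne' h1
    · exact hne h1

theorem mid_tr {ρ : Euc n → ℝ} (β : Euc n → ℝ)
    (hβ : ∀ x y, ρ x * ρ y ≤ (ρ ((1 / 2 : ℝ) • (x + y))) ^ 2 * Real.exp (-(β (x - y) / 4)))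
    {M : ℝ} (hM : 0 < M) (N : ℕ) (x y : Euc n) :
    tr ρ M N x * tr ρ M N y ≤ (tr ρ M N ((1 / 2 : ℝ) • (x + y))) ^ 2 *
      Real.exp (-(β (x - y) / 4)) := by
  have hM' : 0 < M⁻¹ := inv_pos.2 hM
  have hUc : Convex ℝ (Bl n N) := convex_closedBall _ _
  have h0 : 0 ≤ (tr ρ M N ((1 / 2 : ℝ) • (x + y))) ^ 2 * Real.exp (-(β (x - y) / 4)) :=
    mul_nonneg (sq_nonneg _) (Real.exp_pos _).le
  by_cases hx : x ∈ Bl n N
  · by_cases hy : y ∈ Bl n N
    · have hz : (1 / 2 : ℝ) • (x + y) ∈ Bl n N := by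
        have := hUc hx hy (by norm_num : (0 : ℝ) ≤ 1 / 2) (by norm_num : (0 : ℝ) ≤ 1 / 2)
          (by norm_num)
        rwa [← smul_add] at this
      unfold tr
      rw [Set.indicator_of_mem hx, Set.indicator_of_mem hy, Set.indicator_of_mem hz]
      have := mul_le_mul_of_nonneg_left (hβ x y) (sq_nonneg M⁻¹)
      calc M⁻¹ * ρ x * (M⁻¹ * ρ y) = M⁻¹ ^ 2 * (ρ x * ρ y) := by ring
        _ ≤ _ := this
        _ = _ := by ring
    · have : tr ρ M N y = 0 := by unfold tr; rw [Set.indicator_of_notMem hy, mul_zero]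
      rw [this, mul_zero]; exact h0
  · have : tr ρ M N x = 0 := by unfold tr; rw [Set.indicator_of_notMem hx, mul_zero]
    rw [this, zero_mul]; exact h0

/-- the inequality with a positive definite weight `q` -/
theorem pos_q {C : ℝ} (hC : 0 < C) (hcr : Crude C) (e : OrthonormalBasis (Fin n) ℝ (Euc n))
    (b q : Fin n → ℝ) (hb : ∀ i, 0 ≤ b i) (hq : ∀ i, 0 < q i) (g : Euc n → ℝ) (hg : LCF g)
    (hP : IsProbabilityMeasure (mu (dens e b g))) (K : ℝ) (hK : 0 < K)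
    (hKq : ∀ i, K⁻¹ ≤ b i + q i) (a : Euc n) (S : ℝ) (hS : 0 < S)
    (hi : Integrable (fun x => Qf e q (x - a)) (mu (dens e b g)))
    (hm : ∫ x, Qf e q (x - a) ∂(mu (dens e b g)) ≤ S)
    (f : Euc n → ℝ) (hf : ContDiff ℝ 1 f) (h2 : MemLp f 2 (mu (dens e b g)))
    (h3 : Integrable (fun x => ‖fderiv ℝ f x‖ ^ 2) (mu (dens e b g))) :
    ∫ x, f x ^ 2 ∂(mu (dens e b g)) - (∫ x, f x ∂(mu (dens e b g))) ^ 2 ≤
      (1 + C * S) * K * ∫ x, ‖fderiv ℝ f x‖ ^ 2 ∂(mu (dens e b g)) := by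
  set ρ := dens e b g with hρd
  have hρ : LCF ρ := dens_lcf e b hb hg
  have hmid := dens_mid e b hg
  rw [← hρd] at hmid
  have hf2 : Integrable (fun x => f x ^ 2) (mu ρ) := h2.integrable_sq
  have hf1 : Integrable f (mu ρ) := h2.integrable one_le_two
  have t0 : Tendsto (fun N => ∫ x in Bl n N, (1 : ℝ) ∂(mu ρ)) atTop (𝓝 1) := by
    have := Bl_tendsto (mu ρ) (fun _ => (1 : ℝ)) (integrable_const _)
    simpa using this
  have t1 := Bl_tendsto (mu ρ) f hf1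
  have t2 := Bl_tendsto (mu ρ) (fun x => f x ^ 2) hf2
  have t3 := Bl_tendsto (mu ρ) (fun x => ‖fderiv ℝ f x‖ ^ 2) h3
  have t0i : Tendsto (fun N => (∫ x in Bl n N, (1 : ℝ) ∂(mu ρ))⁻¹) atTop (𝓝 1) := by
    have := t0.inv₀ one_ne_zero
    rwa [inv_one] at this
  have L1 := (t0i.mul t2).sub ((t0i.mul t1).pow 2)
  have L2 := (((t0i.mul (tendsto_const_nhds (x := S))).const_mul C).const_add 1).mul_const K |>.mul
    (t0i.mul t3)
  simp only [one_mul] at L1 L2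
  have hev : ∀ᶠ N in atTop, (1 / 2 : ℝ) < ∫ x in Bl n N, (1 : ℝ) ∂(mu ρ) :=
    t0.eventually (lt_mem_nhds (by norm_num))
  refine le_of_tendsto_of_tendsto L1 L2 ?_
  filter_upwards [hev] with N hN
  set M := ∫ x in Bl n N, (1 : ℝ) ∂(mu ρ) with hM
  have hM0 : 0 < M := by linarith
  have hMm : M = (mu ρ (Bl n N)).toReal := by
    rw [hM]; simp [Measure.real]
  have hne : mu ρ (Bl n N) ≠ 0 := by
    intro h0
    rw [hMm, h0] at hM0
    simp at hM0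
  have hL := lc_tr hρ (measure_ne_top _ _) hM0 N hne
  have hu : mu (tr ρ M N) univ = 1 := by
    rw [mu_tr hρ hM0, Measure.smul_apply, Measure.restrict_apply_univ, smul_eq_mul,
      ENNReal.ofReal_inv_of_pos hM0, hMm, ENNReal.ofReal_toReal (measure_ne_top _ _)]
    exact ENNReal.inv_mul_cancel hne (measure_ne_top _ _)
  have hS' : 0 < M⁻¹ * S := mul_pos (inv_pos.2 hM0) hS
  have hmm : ∫ x, ‖Tm e q hq (x - a)‖ ^ 2 ∂(mu (tr ρ M N)) ≤ Real.sqrt (M⁻¹ * S) ^ 2 := by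
    rw [Real.sq_sqrt hS'.le, int_tr hρ hM0]
    refine mul_le_mul_of_nonneg_left ?_ (inv_pos.2 hM0).le
    refine le_trans ?_ hm
    simp only [Tm_norm]
    refine setIntegral_le_integral hi (Eventually.of_forall fun x => ?_)
    show 0 ≤ Qf e q (x - a)
    rw [← Tm_norm e q hq]
    exact sq_nonneg _
  have key := main hC hcr hL hu (Tm e q hq) a (Qf e b) (mid_tr (Qf e b) hmid hM0 N) K hK
    (Tm_le e b q hq K⁻¹ hKq) (Real.sqrt (M⁻¹ * S)) (Real.sqrt_pos.2 hS') hmm f hf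
  rw [int_tr hρ hM0, int_tr hρ hM0, int_tr hρ hM0, Real.sq_sqrt hS'.le] at key
  exact key

/-- second moments from `evariance` -/
theorem var_coord (μ : Measure (Euc n)) (w : Euc n) (v : ℝ) (hv : 0 ≤ v)
    (h : ProbabilityTheory.evariance (fun x => ⟪w, x⟫_ℝ) μ ≤ ENNReal.ofReal v) :
    Integrable (fun x => (⟪w, x⟫_ℝ - ∫ y, ⟪w, y⟫_ℝ ∂μ) ^ 2) μ ∧
      ∫ x, (⟪w, x⟫_ℝ - ∫ y, ⟪w, y⟫_ℝ ∂μ) ^ 2 ∂μ ≤ v := by
  obtain ⟨m, hm⟩ : ∃ m : ℝ, m = ∫ y, ⟪w, y⟫_ℝ ∂μ := ⟨_, rfl⟩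
  unfold ProbabilityTheory.evariance at h
  rw [← hm] at h ⊢
  have hc : Continuous fun x : Euc n => (⟪w, x⟫_ℝ - m) ^ 2 := by fun_prop
  have e1 : ∀ x : Euc n, ‖⟪w, x⟫_ℝ - m‖ₑ ^ 2 = ENNReal.ofReal ((⟪w, x⟫_ℝ - m) ^ 2) := fun x => by
    rw [← ofReal_norm, ← ENNReal.ofReal_pow (norm_nonneg _), Real.norm_eq_abs, sq_abs]
  simp only [e1] at h
  have hi : Integrable (fun x => (⟪w, x⟫_ℝ - m) ^ 2) μ := by
    refine ⟨hc.aestronglyMeasurable, ?_⟩
    rw [hasFiniteIntegral_iff_ofReal (Eventually.of_forall fun x => sq_nonneg _)]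
    exact lt_of_le_of_lt h ENNReal.ofReal_lt_top
  refine ⟨hi, ?_⟩
  rw [← ofReal_integral_eq_lintegral_ofReal hi (Eventually.of_forall fun x => sq_nonneg _)] at h
  exact (ENNReal.ofReal_le_ofReal_iff hv).1 h

theorem moment (μ : Measure (Euc n)) (e : OrthonormalBasis (Fin n) ℝ (Euc n))
    (q v : Fin n → ℝ) (hq : ∀ i, 0 < q i) (hv : ∀ i, 0 ≤ v i)
    (h : ∀ i, ProbabilityTheory.evariance (fun x => ⟪e i, x⟫_ℝ) μ ≤ ENNReal.ofReal (v i)) :
    ∃ a : Euc n, Integrable (fun x => Qf e q (x - a)) μ ∧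
      ∫ x, Qf e q (x - a) ∂μ ≤ ∑ i, q i * v i := by
  obtain ⟨m, hm⟩ : ∃ m : Fin n → ℝ, ∀ i, m i = ∫ y, ⟪e i, y⟫_ℝ ∂μ := ⟨_, fun i => rfl⟩
  refine ⟨e.repr.symm (WithLp.toLp 2 m), ?_⟩
  have h1 : ∀ x, Qf e q (x - e.repr.symm (WithLp.toLp 2 m)) =
      ∑ i, q i * (⟪e i, x⟫_ℝ - ∫ y, ⟪e i, y⟫_ℝ ∂μ) ^ 2 := by
    intro x
    unfold Qf
    refine Finset.sum_congr rfl fun i _ => ?_
    rw [inner_sub_right, ← e.repr_apply_apply (e.repr.symm (WithLp.toLp 2 m)),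
      LinearIsometryEquiv.apply_symm_apply, ← hm]
  simp only [h1]
  have h2 := fun i => var_coord μ (e i) (v i) (hv i) (h i)
  have h3 : ∀ i, Integrable (fun x => q i * (⟪e i, x⟫_ℝ - ∫ y, ⟪e i, y⟫_ℝ ∂μ) ^ 2) μ :=
    fun i => (h2 i).1.const_mul (q i)
  refine ⟨integrable_finsetSum _ fun i _ => h3 i, ?_⟩
  rw [integral_finsetSum _ fun i _ => h3 i]
  refine Finset.sum_le_sum fun i _ => ?_
  rw [integral_const_mul]
  exact mul_le_mul_of_nonneg_left (h2 i).2 (hq i).le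

/-- **interpolation** -/
theorem interp {C : ℝ} (hC : 0 < C) (hcr : Crude C) (e : OrthonormalBasis (Fin n) ℝ (Euc n))
    (b v : Fin n → ℝ) (hb : ∀ i, 0 ≤ b i) (hv : ∀ i, 0 ≤ v i) (g : Euc n → ℝ) (hg : LCF g)
    (hP : IsProbabilityMeasure (mu (dens e b g)))
    (h : ∀ i, ProbabilityTheory.evariance (fun x => ⟪e i, x⟫_ℝ) (mu (dens e b g)) ≤
      ENNReal.ofReal (v i)) (K : ℝ) (hK : 0 < K)
    (f : Euc n → ℝ) (hf : ContDiff ℝ 1 f) (h2 : MemLp f 2 (mu (dens e b g)))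
    (h3 : Integrable (fun x => ‖fderiv ℝ f x‖ ^ 2) (mu (dens e b g))) :
    ProbabilityTheory.variance f (mu (dens e b g)) ≤
      (K + C * ∑ i, max (1 - K * b i) 0 * v i) *
        ∫ x, ‖fderiv ℝ f x‖ ^ 2 ∂(mu (dens e b g)) := by
  rw [ProbabilityTheory.variance_eq_sub h2]
  set J := ∫ x, ‖fderiv ℝ f x‖ ^ 2 ∂(mu (dens e b g)) with hJ
  have hJ0 : 0 ≤ J := integral_nonneg fun x => sq_nonneg _
  obtain ⟨A, hA⟩ : ∃ A : ℝ, A = ∫ x, (f ^ 2) x ∂(mu (dens e b g)) -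
    (∫ x, f x ∂(mu (dens e b g))) ^ 2 := ⟨_, rfl⟩
  rw [← hA]
  have hV0 : 0 ≤ ∑ i, v i := Finset.sum_nonneg fun i _ => hv i
  have main1 : ∀ ε : ℝ, 0 < ε → A ≤ (K + C * ∑ i, max (1 - K * b i) 0 * v i) * J +
      ε * (C * K * (∑ i, v i + 1) * J) := by
    intro ε hε
    obtain ⟨q, hq⟩ : ∃ q : Fin n → ℝ, ∀ i, q i = max (K⁻¹ - b i) 0 + ε := ⟨_, fun i => rfl⟩
    have hq0 : ∀ i, 0 < q i := fun i => by
      rw [hq]; exact add_pos_of_nonneg_of_pos (le_max_right _ _) hε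
    obtain ⟨a, ha1, ha2⟩ := moment (mu (dens e b g)) e q v hq0 hv h
    have hS0 : 0 ≤ ∑ i, q i * v i := Finset.sum_nonneg fun i _ => mul_nonneg (hq0 i).le (hv i)
    have key := pos_q hC hcr e b q hb hq0 g hg hP K hK (fun i => by
      rw [hq]
      have := le_max_left (K⁻¹ - b i) 0
      linarith) a (∑ i, q i * v i + ε) (by linarith) ha1 (by linarith) f hf h2 h3
    have key' : A ≤ (1 + C * (∑ i, q i * v i + ε)) * K * J := by
      rw [hA, hJ]; exact key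
    have e1 : K * ∑ i, q i * v i = ∑ i, max (1 - K * b i) 0 * v i + ε * K * ∑ i, v i := by
      rw [Finset.mul_sum, Finset.mul_sum, ← Finset.sum_add_distrib]
      refine Finset.sum_congr rfl fun i _ => ?_
      have e2 : K * max (K⁻¹ - b i) 0 = max (1 - K * b i) 0 := by
        rw [mul_max_of_nonneg _ _ hK.le, mul_zero, mul_sub, mul_inv_cancel₀ hK.ne']
      rw [hq, ← e2]; ring
    have e3 : (1 + C * (∑ i, q i * v i + ε)) * K * J =
        (K + C * (K * ∑ i, q i * v i) + C * ε * K) * J := by ring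
    rw [e3, e1] at key'
    refine key'.trans (le_of_eq ?_)
    ring
  refine le_of_forall_pos_le_add fun δ hδ => ?_
  have hE : 0 ≤ C * K * (∑ i, v i + 1) * J := by positivity
  have h4 := main1 (δ / (C * K * (∑ i, v i + 1) * J + 1)) (by positivity)
  refine h4.trans (add_le_add le_rfl ?_)
  rw [div_mul_eq_mul_div, div_le_iff₀ (by positivity)]
  nlinarith

end Pool.Agent.Q188.TS
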