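import Pool.Agent.Q289.LD.Fin
import Pool.Agent.Q289.LD.Evar
import Pool.Agent.Q188.TS.Fin

/-!
# Isoperimetric form of the Poincare inequality for a Gaussian factor
-/

set_option autoImplicit false

namespace Pool.Agent.Q188.TS.Iso

open MeasureTheory Set Filter Topology
open scoped ENNReal InnerProductSpace
open Pool.Agent.W695.KH (Eu)
open Pool.Agent.Q188.SB (bdr)

/-- `min (m, 1 - m) ≤ 2 m (1 - m)` for a probability -/
theorem min_le_two {κ : Type} [Fintype κ] {μ : Measure (Eu κ)} [IsProbabilityMeasure μ]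
    {S : Set (Eu κ)} (hS : MeasurableSet S) :
    min (μ S) (μ Sᶜ) ≤ 2 * (μ S * (1 - μ S)) := by
  rw [prob_compl_eq_one_sub hS]
  have hne : μ S ≠ ⊤ := measure_ne_top μ S
  set x := (μ S).toReal with hx
  have hx0 : 0 ≤ x := ENNReal.toReal_nonneg
  have hx1 : x ≤ 1 := by
    have := ENNReal.toReal_mono ENNReal.one_ne_top (prob_le_one (μ := μ) (s := S))
    simpa using this
  have e0 : μ S = ENNReal.ofReal x := (ENNReal.ofReal_toReal hne).symm
  rw [e0, ← ENNReal.ofReal_one, ← ENNReal.ofReal_sub 1 hx0, ← ENNReal.ofReal_mul hx0,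
    show (2 : ℝ≥0∞) = ENNReal.ofReal 2 by norm_num, ← ENNReal.ofReal_mul (by norm_num)]
  rcases le_total x (1 / 2) with h | h
  · refine (min_le_left _ _).trans (ENNReal.ofReal_le_ofReal ?_)
    nlinarith
  · refine (min_le_right _ _).trans (ENNReal.ofReal_le_ofReal ?_)
    nlinarith

/-- from Poincare to the isoperimetric inequality, for log-concave probability densities -/
theorem iso_gen {κ : Type} [Fintype κ] {ρ : Eu κ → ℝ} (hρ : Q289.LD.Den ρ) {μ : Measure (Eu κ)}
    [IsProbabilityMeasure μ] (hμ : μ = volume.withDensity fun x => ENNReal.ofReal (ρ x))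
    {D : ℝ} (hD : 0 < D)
    (hP : ∀ f : Eu κ → ℝ, ContDiff ℝ 1 f → MemLp f 2 μ →
      ENNReal.ofReal (ProbabilityTheory.variance f μ) ≤
        ENNReal.ofReal D * ∫⁻ x, ENNReal.ofReal (‖fderiv ℝ f x‖ ^ 2) ∂μ)
    {S : Set (Eu κ)} (hS : MeasurableSet S) :
    ENNReal.ofReal (1 / 14 / Real.sqrt D) * min (μ S) (μ Sᶜ) ≤ bdr μ S := by
  have h1 : μ S * (1 - μ S) ≤ ENNReal.ofReal (7 * Real.sqrt D) * bdr μ S := by
    refine Q289.LD.led_evar Q289.LD.tLED hρ hD hμ (fun f hf hb => ?_) hS
    have hL2 : MemLp f 2 μ := by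
      refine MemLp.of_bound hf.continuous.aestronglyMeasurable 1 (Eventually.of_forall fun x => ?_)
      rw [Real.norm_eq_abs]
      exact hb x
    rw [← hL2.ofReal_variance_eq]
    exact hP f hf hL2
  have hsq : 0 < Real.sqrt D := Real.sqrt_pos.2 hD
  calc ENNReal.ofReal (1 / 14 / Real.sqrt D) * min (μ S) (μ Sᶜ)
      ≤ ENNReal.ofReal (1 / 14 / Real.sqrt D) *
          (2 * (ENNReal.ofReal (7 * Real.sqrt D) * bdr μ S)) :=
        mul_le_mul_right ((min_le_two hS).trans (mul_le_mul_right h1 _)) _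
    _ = (ENNReal.ofReal (1 / 14 / Real.sqrt D) * (2 * ENNReal.ofReal (7 * Real.sqrt D))) *
          bdr μ S := by ring
    _ = bdr μ S := by
        rw [show (2 : ℝ≥0∞) = ENNReal.ofReal 2 by norm_num, ← ENNReal.ofReal_mul (by norm_num),
          ← ENNReal.ofReal_mul (by positivity)]
        have : 1 / 14 / Real.sqrt D * (2 * (7 * Real.sqrt D)) = 1 := by field_simp; norm_num
        rw [this, ENNReal.ofReal_one, one_mul]

variable {n : ℕ}

/-- the density is a log-concave probability density -/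
theorem den_dens (e : OrthonormalBasis (Fin n) ℝ (Euc n)) (b : Fin n → ℝ) (hb : ∀ i, 0 ≤ b i)
    {g : Euc n → ℝ} (hg : LCF g) {μ : Measure (Euc n)} [hpr : IsProbabilityMeasure μ]
    (hμ : μ = volume.withDensity fun x => ENNReal.ofReal (dens e b g x)) :
    Q289.LD.Den (κ := Fin n) (dens e b g) := by
  have h := dens_lcf e b hb hg
  refine ⟨h.nonneg, h.meas, h.logc, ?_⟩
  have h1 : μ univ = 1 := measure_univ
  rw [hμ, withDensity_apply _ MeasurableSet.univ, Measure.restrict_univ] at h1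
  rw [integral_eq_lintegral_of_nonneg_ae (Eventually.of_forall h.nonneg)
    h.meas.aestronglyMeasurable, h1, ENNReal.toReal_one]

end Pool.Agent.Q188.TS.Iso
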